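import Mathlib

open MvPolynomial

namespace Pool.Agent.LDP

section subst

variable {K : Type} [Field K] {R : Type} [CommRing R] [Algebra K R]

/-- The substitution `x = sum a_l w_l`, `y = sum b_l w_l`. -/
noncomputable def phi {m j : ℕ} (w : Fin j → Fin m → R) :
    MvPolynomial (Fin m ⊕ Fin m) K →ₐ[K] MvPolynomial (Fin j ⊕ Fin j) R :=
  aeval (Sum.elim (fun s => ∑ l, C (w l s) * X (Sum.inl l))
    (fun s => ∑ l, C (w l s) * X (Sum.inr l)))

lemma phi_X_inl {m j : ℕ} (w : Fin j → Fin m → R) (s : Fin m) :
    phi (K := K) w (X (Sum.inl s)) = ∑ l, C (w l s) * X (Sum.inl l) := by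
  simp [phi]

lemma phi_X_inr {m j : ℕ} (w : Fin j → Fin m → R) (s : Fin m) :
    phi (K := K) w (X (Sum.inr s)) = ∑ l, C (w l s) * X (Sum.inr l) := by
  simp [phi]

lemma totalDegree_phi_le [Nontrivial R] {m j : ℕ} (w : Fin j → Fin m → R)
    (f : MvPolynomial (Fin m ⊕ Fin m) K) :
    (phi w f).totalDegree ≤ f.totalDegree := by
  classical
  have hlin : ∀ s : Fin m ⊕ Fin m, (phi (K := K) w (X s)).totalDegree ≤ 1 := by
    rintro (s | s)
    · rw [phi_X_inl]
      refine (totalDegree_finsetSum _ _).trans ?_
      refine Finset.sup_le fun l _ => ?_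
      refine (totalDegree_mul _ _).trans ?_
      rw [totalDegree_C, zero_add]
      exact (totalDegree_X _).le
    · rw [phi_X_inr]
      refine (totalDegree_finsetSum _ _).trans ?_
      refine Finset.sup_le fun l _ => ?_
      refine (totalDegree_mul _ _).trans ?_
      rw [totalDegree_C, zero_add]
      exact (totalDegree_X _).le
  conv_lhs => rw [f.as_sum, map_sum]
  refine (totalDegree_finsetSum _ _).trans ?_
  refine Finset.sup_le fun μ hμ => ?_
  have h1 : phi w (monomial μ (coeff μ f)) =
      C (algebraMap K R (coeff μ f)) * μ.prod fun s e => (phi (K := K) w (X s)) ^ e := by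
    rw [monomial_eq, map_mul]
    congr 1
    · rw [← algebraMap_eq, AlgHom.commutes]
      rfl
    · rw [map_finsuppProd]
      simp only [map_pow]
  rw [h1]
  refine (totalDegree_mul _ _).trans ?_
  rw [totalDegree_C, zero_add]
  refine (totalDegree_finsetProd _ _).trans ?_
  refine le_trans (Finset.sum_le_sum fun s _ => (totalDegree_pow _ _).trans
    (Nat.mul_le_mul_left _ (hlin s))) ?_
  simp only [mul_one]
  exact le_totalDegree hμ

/-- Changing the ring of coefficients. -/
lemma map_phi {R' : Type} [CommRing R'] [Algebra K R'] (g : R →ₐ[K] R') {m j : ℕ}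
    (w : Fin j → Fin m → R) (f : MvPolynomial (Fin m ⊕ Fin m) K) :
    MvPolynomial.map (g : R →+* R') (phi w f) = phi (fun l s => g (w l s)) f := by
  induction f using MvPolynomial.induction_on with
  | C a =>
    rw [← algebraMap_eq, AlgHom.commutes, AlgHom.commutes]
    change MvPolynomial.map (g : R →+* R') (C (algebraMap K R a)) = C (algebraMap K R' a)
    rw [map_C]
    simp
  | add p q hp hq => rw [map_add, map_add, hp, hq, map_add]
  | mul_X p n hp =>
    rw [map_mul, map_mul, hp, map_mul]
    congr 1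
    rcases n with s | s
    · rw [phi_X_inl, phi_X_inl, map_sum]
      refine Finset.sum_congr rfl fun l _ => ?_
      rw [map_mul, map_C, map_X]
      rfl
    · rw [phi_X_inr, phi_X_inr, map_sum]
      refine Finset.sum_congr rfl fun l _ => ?_
      rw [map_mul, map_C, map_X]
      rfl

/-- Adding the zero vector does not change the substitution. -/
lemma phi_snoc_zero {m j : ℕ} (w : Fin j → Fin m → R) (f : MvPolynomial (Fin m ⊕ Fin m) K) :
    phi (Fin.snoc w 0 : Fin (j + 1) → Fin m → R) f =
      rename (Sum.map Fin.castSucc Fin.castSucc) (phi w f) := by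
  induction f using MvPolynomial.induction_on with
  | C a =>
    rw [← algebraMap_eq, AlgHom.commutes, AlgHom.commutes]
    change C (algebraMap K R a) = rename _ (C (algebraMap K R a))
    rw [rename_C]
  | add p q hp hq => rw [map_add, map_add, hp, hq, map_add]
  | mul_X p n hp =>
    rw [map_mul, map_mul, hp, map_mul]
    congr 1
    rcases n with s | s
    · rw [phi_X_inl, phi_X_inl, map_sum, Fin.sum_univ_castSucc]
      simp
    · rw [phi_X_inr, phi_X_inr, map_sum, Fin.sum_univ_castSucc]
      simp

end subst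

section coeffs

variable {K : Type} [Field K] {m j : ℕ}

/-- The exponent of the two new parameters. -/
def wt (μ : Fin (j + 1) ⊕ Fin (j + 1) →₀ ℕ) : ℕ := μ (Sum.inl (Fin.last j)) + μ (Sum.inr (Fin.last j))

lemma wt_add (μ ν : Fin (j + 1) ⊕ Fin (j + 1) →₀ ℕ) : wt (μ + ν) = wt μ + wt ν := by
  simp only [wt, Finsupp.add_apply]
  ring

/-- The coefficient of a monomial has degree at most the exponent of the new parameters. -/
def Good (F : MvPolynomial (Fin (j + 1) ⊕ Fin (j + 1)) (MvPolynomial (Fin m) K)) : Prop :=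
  ∀ μ, (coeff μ F).totalDegree ≤ wt μ

lemma good_add {F G : MvPolynomial (Fin (j + 1) ⊕ Fin (j + 1)) (MvPolynomial (Fin m) K)}
    (hF : Good F) (hG : Good G) : Good (F + G) := by
  intro μ
  rw [coeff_add]
  exact (totalDegree_add _ _).trans (max_le (hF μ) (hG μ))

lemma good_mul {F G : MvPolynomial (Fin (j + 1) ⊕ Fin (j + 1)) (MvPolynomial (Fin m) K)}
    (hF : Good F) (hG : Good G) : Good (F * G) := by
  classical
  intro μ
  rw [coeff_mul]
  refine (totalDegree_finsetSum _ _).trans ?_
  refine Finset.sup_le fun p hp => ?_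
  have hp' : p.1 + p.2 = μ := Finset.HasAntidiagonal.mem_antidiagonal.mp hp
  refine (totalDegree_mul _ _).trans ?_
  rw [← hp', wt_add]
  exact add_le_add (hF _) (hG _)

lemma good_sum {ι : Type} (s : Finset ι)
    {F : ι → MvPolynomial (Fin (j + 1) ⊕ Fin (j + 1)) (MvPolynomial (Fin m) K)}
    (hF : ∀ i ∈ s, Good (F i)) : Good (∑ i ∈ s, F i) := by
  classical
  induction s using Finset.induction_on with
  | empty =>
    intro μ
    simp
  | insert a s ha ih =>
    rw [Finset.sum_insert ha]
    exact good_add (hF _ (Finset.mem_insert_self _ _))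
      (ih fun i hi => hF i (Finset.mem_insert_of_mem hi))

lemma good_C_mul_X {c : MvPolynomial (Fin m) K} (s : Fin (j + 1) ⊕ Fin (j + 1))
    (hc : c.totalDegree ≤ wt (Finsupp.single s 1)) :
    Good (C c * X s : MvPolynomial (Fin (j + 1) ⊕ Fin (j + 1)) (MvPolynomial (Fin m) K)) := by
  classical
  intro μ
  rw [coeff_C_mul, coeff_X]
  split_ifs with h
  · rw [← h, mul_one]
    exact hc
  · simp

lemma good_phi {w : Fin (j + 1) → Fin m → MvPolynomial (Fin m) K}
    (hw : ∀ l s, (w l s).totalDegree ≤ if l = Fin.last j then 1 else 0)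
    (f : MvPolynomial (Fin m ⊕ Fin m) K) :
    Good (phi w f) := by
  classical
  induction f using MvPolynomial.induction_on with
  | C a =>
    rw [← algebraMap_eq, AlgHom.commutes]
    change Good (C (C a))
    intro μ
    rw [coeff_C]
    split_ifs with h
    · rw [totalDegree_C]
      exact Nat.zero_le _
    · simp
  | add p q hp hq => rw [map_add]; exact good_add hp hq
  | mul_X p n hp =>
    rw [map_mul]
    refine good_mul hp ?_
    rcases n with s | s
    · rw [phi_X_inl]
      refine good_sum _ fun l _ => good_C_mul_X _ ((hw l s).trans ?_)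
      by_cases h1 : l = Fin.last j
      · subst h1
        simp [wt]
      · simp [wt, h1]
    · rw [phi_X_inr]
      refine good_sum _ fun l _ => good_C_mul_X _ ((hw l s).trans ?_)
      by_cases h1 : l = Fin.last j
      · subst h1
        simp [wt]
      · simp [wt, h1]

end coeffs

section index

variable {S : Type} [Fintype S] [DecidableEq S]

/-- The exponent vector of a multiset of size `d` of variables and dummies. -/
noncomputable def mon {d : ℕ} (σ : Sym (Option S) d) : S →₀ ℕ :=
  Finsupp.equivFunOnFinite.symm fun s => Multiset.count (some s) (σ : Multiset (Option S))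

lemma exists_mon {d : ℕ} (μ : S →₀ ℕ) (hμ : μ.degree ≤ d) : ∃ σ : Sym (Option S) d, mon σ = μ := by
  have hcard : (Finsupp.toMultiset μ).card = μ.degree := by
    rw [Finsupp.card_toMultiset]
    rfl
  refine ⟨⟨(Finsupp.toMultiset μ).map some + Multiset.replicate (d - μ.degree) none, ?_⟩, ?_⟩
  · rw [Multiset.card_add, Multiset.card_map, Multiset.card_replicate, hcard]
    omega
  · ext s
    change Multiset.count (some s)
      ((Finsupp.toMultiset μ).map some + Multiset.replicate (d - μ.degree) none) = μ s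
    rw [Multiset.count_add, Multiset.count_map_eq_count' _ _ (Option.some_injective _),
      Finsupp.count_toMultiset, Multiset.count_replicate]
    simp

lemma card_index (d : ℕ) :
    Fintype.card (Sym (Option S) d) = (Fintype.card S + d).choose d := by
  rw [Sym.card_sym_eq_choose, Fintype.card_option]
  have h : Fintype.card S + 1 + d - 1 = Fintype.card S + d := by omega
  rw [h]

lemma sum_count_eq (d : ℕ) (a b : Option S) :
    ∑ σ : Sym (Option S) d, Multiset.count a (σ : Multiset (Option S)) =
      ∑ σ : Sym (Option S) d, Multiset.count b (σ : Multiset (Option S)) := by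
  refine Fintype.sum_equiv (Sym.equivCongr (Equiv.swap a b)) _ _ fun σ => ?_
  have h : Multiset.count (Equiv.swap a b a)
      (((σ : Multiset (Option S))).map (Equiv.swap a b)) =
      Multiset.count a (σ : Multiset (Option S)) :=
    Multiset.count_map_eq_count' _ _ (Equiv.swap a b).injective _
  rw [Equiv.swap_apply_left] at h
  rw [← h]
  rfl

lemma sum_mon_le (d : ℕ) (s : S) :
    ∑ σ : Sym (Option S) d, mon σ s ≤ (Fintype.card S + d).choose (d - 1) := by
  have h1 : ∀ a : Option S, ∑ σ : Sym (Option S) d, Multiset.count a (σ : Multiset (Option S)) =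
      ∑ σ : Sym (Option S) d, mon σ s := fun a => sum_count_eq d a (some s)
  have h2 : ∑ a : Option S, ∑ σ : Sym (Option S) d,
      Multiset.count a (σ : Multiset (Option S)) = (Fintype.card S + d).choose d * d := by
    rw [Finset.sum_comm]
    have h3 : ∀ σ : Sym (Option S) d,
        ∑ a : Option S, Multiset.count a (σ : Multiset (Option S)) = d := by
      intro σ
      rw [Multiset.sum_count_eq_card fun a _ => Finset.mem_univ a]
      exact σ.2
    rw [Finset.sum_congr rfl fun σ _ => h3 σ, Finset.sum_const, Finset.card_univ, card_index,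
      smul_eq_mul]
  rw [Finset.sum_congr rfl fun a _ => h1 a, Finset.sum_const, Finset.card_univ,
    Fintype.card_option, smul_eq_mul] at h2
  rcases d with _ | d
  · have h3 : ∑ σ : Sym (Option S) 0, mon σ s = 0 := by
      rw [mul_zero] at h2
      exact (Nat.mul_eq_zero.mp h2).resolve_left (by omega)
    rw [h3]
    exact Nat.zero_le _
  · rw [Nat.add_sub_cancel]
    have h4 := Nat.choose_succ_right_eq (Fintype.card S + (d + 1)) d
    rw [h4, show Fintype.card S + (d + 1) - d = Fintype.card S + 1 by omega, mul_comm] at h2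
    exact (Nat.eq_of_mul_eq_mul_right (Nat.succ_pos _) h2).le

end index

section step

variable {K : Type} [Field K] [Fintype K]

/-- The main step: one more basis vector. -/
lemma step {m d r j : ℕ} (f : Fin r → MvPolynomial (Fin m ⊕ Fin m) K)
    (hf : ∀ i, (f i).totalDegree ≤ d) (w : Fin j → Fin m → K) (T : Finset (Fin m))
    (hconst : ∀ i, ∃ c, phi (R := K) w (f i) = C c)
    (hcard : 2 * r * (2 * (j + 1) + d).choose (d - 1) + T.card < m) :
    ∃ v : Fin m → K, v ≠ 0 ∧ (∀ t ∈ T, v t = 0) ∧
      ∀ i, ∃ c, phi (R := K) (Fin.snoc w v : Fin (j + 1) → Fin m → K) (f i) = C c := by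
  classical
  -- the generic matrix
  let W : Fin (j + 1) → Fin m → MvPolynomial (Fin m) K :=
    Fin.snoc (fun l s => C (w l s)) (fun s => X s)
  have hWdeg : ∀ l s, (W l s).totalDegree ≤ if l = Fin.last j then 1 else 0 := by
    intro l s
    refine Fin.lastCases ?_ (fun l => ?_) l
    · simp only [W, Fin.snoc_last, if_true]
      exact (totalDegree_X _).le
    · simp only [W, Fin.snoc_castSucc]
      rw [totalDegree_C]
      exact Nat.zero_le _
  have hWeval : ∀ v : Fin m → K, (fun l s => (aeval v : MvPolynomial (Fin m) K →ₐ[K] K) (W l s)) =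
      (Fin.snoc w v : Fin (j + 1) → Fin m → K) := by
    intro v
    funext l s
    refine Fin.lastCases ?_ (fun l => ?_) l
    · simp [W]
    · simp [W]
  have hspec : ∀ (v : Fin m → K) i μ,
      coeff μ (phi (R := K) (Fin.snoc w v : Fin (j + 1) → Fin m → K) (f i)) =
        eval v (coeff μ (phi W (f i))) := by
    intro v i μ
    rw [← hWeval v, ← map_phi (aeval v : MvPolynomial (Fin m) K →ₐ[K] K) W (f i), coeff_map]
    rfl
  -- the system of equations
  let ι := (Fin r × Sym (Option (Fin (j + 1) ⊕ Fin (j + 1))) d) ⊕ {t // t ∈ T}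
  let g : ι → MvPolynomial (Fin m) K := Sum.elim
    (fun p => if mon p.2 = 0 then 0 else coeff (mon p.2) (phi W (f p.1))) (fun t => X t.1)
  have hgdeg : (∑ i, (g i).totalDegree) < Fintype.card (Fin m) := by
    rw [Fintype.sum_sum_type, Fintype.card_fin]
    refine lt_of_le_of_lt ?_ hcard
    refine add_le_add ?_ ?_
    · have h1 : ∀ q : Fin r × Sym (Option (Fin (j + 1) ⊕ Fin (j + 1))) d,
          (g (Sum.inl q)).totalDegree ≤
            mon q.2 (Sum.inl (Fin.last j)) + mon q.2 (Sum.inr (Fin.last j)) := by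
        rintro ⟨i, σ⟩
        change (if mon σ = 0 then 0 else coeff (mon σ) (phi W (f i))).totalDegree ≤ _
        split_ifs with h0
        · simp
        · exact good_phi hWdeg (f i) (mon σ)
      refine le_trans (Finset.sum_le_sum fun q _ => h1 q) ?_
      rw [Fintype.sum_prod_type]
      simp only []
      rw [Finset.sum_const, Finset.card_univ, Fintype.card_fin,
        smul_eq_mul, Finset.sum_add_distrib]
      have h2 := sum_mon_le d (Sum.inl (Fin.last j) : Fin (j + 1) ⊕ Fin (j + 1))
      have h3 := sum_mon_le d (Sum.inr (Fin.last j) : Fin (j + 1) ⊕ Fin (j + 1))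
      have h4 : Fintype.card (Fin (j + 1) ⊕ Fin (j + 1)) = 2 * (j + 1) := by
        simp only [Fintype.card_sum, Fintype.card_fin]
        ring
      rw [h4] at h2 h3
      calc _ ≤ r * ((2 * (j + 1) + d).choose (d - 1) + (2 * (j + 1) + d).choose (d - 1)) :=
            Nat.mul_le_mul_left _ (add_le_add h2 h3)
        _ = _ := by ring
    · refine le_trans (Finset.sum_le_card_nsmul _ _ 1 ?_) ?_
      · rintro t -
        change (X t.1 : MvPolynomial (Fin m) K).totalDegree ≤ 1
        exact (totalDegree_X _).le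
      · rw [Finset.card_univ, smul_eq_mul, mul_one, Fintype.card_coe]
  obtain ⟨p, hp⟩ := CharP.exists K
  have hpp : p.Prime := CharP.char_is_prime K p
  have hdvd := char_dvd_card_solutions_of_fintype_sum_lt p hgdeg
  have hsol0 : ∀ i, eval (0 : Fin m → K) (g i) = 0 := by
    rintro (⟨i, σ⟩ | t)
    · change eval (0 : Fin m → K) (if mon σ = 0 then 0 else coeff (mon σ) (phi W (f i))) = 0
      split_ifs with h0
      · simp
      · rw [← hspec, phi_snoc_zero]
        obtain ⟨c, hc⟩ := hconst i
        rw [hc, rename_C, coeff_C, if_neg (Ne.symm h0)]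
    · change eval (0 : Fin m → K) (X t.1) = 0
      simp
  have hcard2 : 1 < Fintype.card {x : Fin m → K // ∀ i, eval x (g i) = 0} := by
    have hpos : 0 < Fintype.card {x : Fin m → K // ∀ i, eval x (g i) = 0} :=
      Fintype.card_pos_iff.mpr ⟨⟨0, hsol0⟩⟩
    exact lt_of_lt_of_le hpp.one_lt (Nat.le_of_dvd hpos hdvd)
  obtain ⟨⟨v, hv⟩, hne⟩ := Fintype.exists_ne_of_one_lt_card hcard2 ⟨0, hsol0⟩
  refine ⟨v, fun h => hne (Subtype.ext h), ?_, ?_⟩
  · intro t ht
    have := hv (Sum.inr ⟨t, ht⟩)
    change eval v (X t) = 0 at this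
    simpa using this
  · intro i
    refine ⟨coeff 0 (phi (R := K) (Fin.snoc w v : Fin (j + 1) → Fin m → K) (f i)), ?_⟩
    ext μ
    rw [coeff_C]
    split_ifs with h0
    · rw [h0]
    · by_cases hdeg : μ.degree ≤ d
      · obtain ⟨σ, hσ⟩ := exists_mon μ hdeg
        have := hv (Sum.inl (i, σ))
        change eval v (if mon σ = 0 then 0 else coeff (mon σ) (phi W (f i))) = 0 at this
        rw [hσ, if_neg (Ne.symm h0), ← hspec] at this
        exact this
      · refine coeff_eq_zero_of_totalDegree_lt ?_
        refine lt_of_le_of_lt ((totalDegree_phi_le _ (f i)).trans (hf i)) ?_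
        exact not_le.mp hdeg

/-- All steps together. -/
lemma steps {m d r k : ℕ} (f : Fin r → MvPolynomial (Fin m ⊕ Fin m) K)
    (hf : ∀ i, (f i).totalDegree ≤ d) (hcard : 2 * r * (2 * k + d).choose (d - 1) + k ≤ m) :
    ∀ j ≤ k, ∃ (w : Fin j → Fin m → K) (T : Finset (Fin m)), T.card ≤ j ∧
      LinearIndependent K w ∧
      (∀ x ∈ Submodule.span K (Set.range w), (∀ t ∈ T, x t = 0) → x = 0) ∧
      ∀ i, ∃ c, phi (R := K) w (f i) = C c := by
  classical
  intro j
  induction j with
  | zero =>
    intro _
    refine ⟨Fin.elim0, ∅, by simp, linearIndependent_empty_type, ?_, ?_⟩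
    · intro x hx _
      have : Set.range (Fin.elim0 : Fin 0 → Fin m → K) = ∅ := Set.range_eq_empty _
      rw [this, Submodule.span_empty] at hx
      exact (Submodule.mem_bot K).mp hx
    · intro i
      exact ⟨_, eq_C_of_isEmpty _⟩
  | succ j ih =>
    intro hj
    obtain ⟨w, T, hT, hw, hsep, hconst⟩ := ih (by omega)
    have hc : 2 * r * (2 * (j + 1) + d).choose (d - 1) + T.card < m := by
      have h1 : (2 * (j + 1) + d).choose (d - 1) ≤ (2 * k + d).choose (d - 1) :=
        Nat.choose_le_choose _ (by omega)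
      have h2 : 2 * r * (2 * (j + 1) + d).choose (d - 1) ≤ 2 * r * (2 * k + d).choose (d - 1) :=
        Nat.mul_le_mul_left _ h1
      omega
    obtain ⟨v, hv0, hvT, hvc⟩ := step f hf w T hconst hc
    obtain ⟨t, ht⟩ : ∃ t, v t ≠ 0 := by
      by_contra hcon
      push Not at hcon
      exact hv0 (funext hcon)
    refine ⟨Fin.snoc w v, insert t T, ?_, ?_, ?_, hvc⟩
    · exact (Finset.card_insert_le _ _).trans (by omega)
    · rw [linearIndependent_finSnoc]
      exact ⟨hw, fun hmem => hv0 (hsep v hmem hvT)⟩
    · intro x hx hxT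
      rw [Fin.range_snoc, Submodule.mem_span_insert] at hx
      obtain ⟨a, y, hy, rfl⟩ := hx
      have hy0 : y = 0 := by
        refine hsep y hy fun s hs => ?_
        have h := hxT s (Finset.mem_insert_of_mem hs)
        rw [Pi.add_apply, Pi.smul_apply, hvT s hs, smul_zero, zero_add] at h
        exact h
      rw [hy0, add_zero]
      have h := hxT t (Finset.mem_insert_self _ _)
      rw [hy0, add_zero, Pi.smul_apply, smul_eq_mul, mul_eq_zero] at h
      rcases h with h | h
      · rw [h, zero_smul]
      · exact absurd h ht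

omit [Fintype K] in
lemma eval_phi {m j : ℕ} (w : Fin j → Fin m → K) (a b : Fin j → K)
    (f : MvPolynomial (Fin m ⊕ Fin m) K) :
    eval (Sum.elim (∑ l, a l • w l) (∑ l, b l • w l)) f =
      eval (Sum.elim a b) (phi (R := K) w f) := by
  induction f using MvPolynomial.induction_on with
  | C a =>
    rw [eval_C, ← algebraMap_eq, AlgHom.commutes]
    change _ = eval _ (C (algebraMap K K a))
    rw [eval_C]
    rfl
  | add p q hp hq => rw [map_add, map_add, hp, hq, map_add]
  | mul_X p n hp =>
    rw [map_mul, map_mul, hp, map_mul]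
    congr 1
    rcases n with s | s
    · rw [phi_X_inl, map_sum]
      simp [mul_comm]
    · rw [phi_X_inr, map_sum]
      simp [mul_comm]

/-- A family of polynomials of low degree is constant on `U x U` for a subspace `U` of large
dimension. -/
theorem exists_subspace {m d r k : ℕ} (f : Fin r → MvPolynomial (Fin m ⊕ Fin m) K)
    (hf : ∀ i, (f i).totalDegree ≤ d) (hcard : 2 * r * (2 * k + d).choose (d - 1) + k ≤ m) :
    ∃ U : Submodule K (Fin m → K), Module.finrank K U = k ∧
      ∀ i, ∃ c, ∀ x ∈ U, ∀ y ∈ U, eval (Sum.elim x y) (f i) = c := by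
  obtain ⟨w, T, -, hw, -, hconst⟩ := steps f hf hcard k le_rfl
  refine ⟨Submodule.span K (Set.range w), ?_, ?_⟩
  · rw [finrank_span_eq_card hw, Fintype.card_fin]
  · intro i
    obtain ⟨c, hc⟩ := hconst i
    refine ⟨c, fun x hx y hy => ?_⟩
    rw [Submodule.mem_span_range_iff_exists_fun] at hx hy
    obtain ⟨a, rfl⟩ := hx
    obtain ⟨b, rfl⟩ := hy
    rw [eval_phi, hc, eval_C]

/-- The statement for graphs. -/
theorem exists_homogeneous_subspace {m d r k : ℕ} (f : Fin r → MvPolynomial (Fin m ⊕ Fin m) K)
    (hf : ∀ i, (f i).totalDegree ≤ d) (hcard : 2 * r * (2 * k + d).choose (d - 1) + k ≤ m)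
    (G : SimpleGraph (Fin m → K))
    (hG : ∀ x y x' y' : Fin m → K, x ≠ y → x' ≠ y' →
      (∀ i, eval (Sum.elim x y) (f i) = eval (Sum.elim x' y') (f i)) →
      (∀ i, eval (Sum.elim y x) (f i) = eval (Sum.elim y' x') (f i)) →
      (G.Adj x y ↔ G.Adj x' y')) :
    ∃ U : Submodule K (Fin m → K), Module.finrank K U = k ∧
      (G.IsClique (U : Set (Fin m → K)) ∨ G.IsIndepSet (U : Set (Fin m → K))) := by
  obtain ⟨U, hU, hc⟩ := exists_subspace f hf hcard
  refine ⟨U, hU, ?_⟩
  have hval : ∀ i, ∀ x ∈ U, ∀ y ∈ U, ∀ x' ∈ U, ∀ y' ∈ U,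
      eval (Sum.elim x y) (f i) = eval (Sum.elim x' y') (f i) := by
    intro i x hx y hy x' hx' y' hy'
    obtain ⟨c, hc⟩ := hc i
    rw [hc x hx y hy, hc x' hx' y' hy']
  by_cases h : ∃ x ∈ U, ∃ y ∈ U, x ≠ y ∧ G.Adj x y
  · left
    obtain ⟨x, hx, y, hy, hxy, hadj⟩ := h
    intro x' hx' y' hy' hne
    exact (hG x y x' y' hxy hne (fun i => hval i x hx y hy x' hx' y' hy')
      (fun i => hval i y hy x hx y' hy' x' hx')).mp hadj
  · right
    intro x hx y hy hne hadj
    exact h ⟨x, hx, y, hy, hne, hadj⟩

end step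

end Pool.Agent.LDP
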