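import Mathlib
import Pool.Agent.LDP.Chev

open MvPolynomial

namespace Pool.Agent.LDP

lemma choose_le_pow_mul_exp (N d : ℕ) {s : ℝ} (hs : 1 ≤ s) :
    ((N.choose d : ℕ) : ℝ) ≤ s ^ d * Real.exp (N / s) := by
  have h1 : ((N.choose d : ℕ) : ℝ) ≤ (N : ℝ) ^ d / (d.factorial : ℝ) := Nat.choose_le_pow_div _ _
  have hs0 : 0 < s := lt_of_lt_of_le one_pos hs
  have h2 : ((N : ℝ) / s) ^ d / (d.factorial : ℝ) ≤ Real.exp (N / s) :=
    Real.pow_div_factorial_le_exp _ (by positivity) _
  calc ((N.choose d : ℕ) : ℝ) ≤ (N : ℝ) ^ d / (d.factorial : ℝ) := h1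
    _ = s ^ d * (((N : ℝ) / s) ^ d / (d.factorial : ℝ)) := by
      rw [div_pow]
      field_simp
    _ ≤ s ^ d * Real.exp (N / s) := by gcongr

/-- The numerical condition holds for all large `m`. -/
lemma numeric (R : ℕ) : ∃ δ : ℝ, 0 < δ ∧ ∃ m0 : ℕ, ∀ m r d : ℕ, m0 ≤ m → (r : ℝ) ≤ √m →
    (d : ℝ) ≤ δ * Real.log m →
    2 * r * (2 * (R * (Nat.log 2 m + 1)) + d).choose (d - 1) + R * (Nat.log 2 m + 1) ≤ m := by
  set s : ℝ := 16 * (6 * R + 1) with hs
  have hs1 : 1 ≤ s := by
    have : (0 : ℝ) ≤ R := Nat.cast_nonneg _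
    rw [hs]
    linarith
  have hs0 : 0 < s := by linarith
  refine ⟨1 / (16 * s), by positivity, ⌈Real.exp (8 * (2 + 6 * R))⌉₊, ?_⟩
  intro m r d hm hr hd
  set x : ℝ := Real.log m with hx
  have hR : (0 : ℝ) ≤ R := Nat.cast_nonneg _
  have hmexp : Real.exp (8 * (2 + 6 * R)) ≤ m := (Nat.le_ceil _).trans (by exact_mod_cast hm)
  have hm0 : (0 : ℝ) < m := lt_of_lt_of_le (Real.exp_pos _) hmexp
  have hxge : 8 * (2 + 6 * R) ≤ x := by
    rw [hx]
    exact (Real.le_log_iff_exp_le hm0).mpr hmexp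
  have hx1 : 1 ≤ x := by nlinarith
  have hmx : (m : ℝ) = Real.exp x := by rw [hx, Real.exp_log hm0]
  -- the logarithm
  have hlog : ((Nat.log 2 m : ℕ) : ℝ) ≤ 2 * x := by
    have h1 : (2 : ℝ) ^ (Nat.log 2 m) ≤ m := by
      exact_mod_cast Nat.pow_log_le_self 2 (by
        intro h0
        rw [h0] at hm0
        simp at hm0)
    have h2 : (Nat.log 2 m : ℝ) * Real.log 2 ≤ x := by
      rw [hx, ← Real.log_pow]
      exact Real.log_le_log (by positivity) h1
    have h3 : (0.5 : ℝ) ≤ Real.log 2 := by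
      have := Real.log_two_gt_d9
      linarith
    have h4 : (0 : ℝ) ≤ Nat.log 2 m := Nat.cast_nonneg _
    nlinarith
  have hk : ((R * (Nat.log 2 m + 1) : ℕ) : ℝ) ≤ 3 * R * x := by
    push_cast
    nlinarith
  have hd' : (d : ℝ) ≤ x := by
    refine hd.trans ?_
    have : 1 / (16 * s) ≤ 1 := by
      rw [div_le_one (by positivity)]
      linarith
    nlinarith
  have hN : ((2 * (R * (Nat.log 2 m + 1)) + d : ℕ) : ℝ) ≤ (6 * R + 1) * x := by
    push_cast at hk ⊢
    nlinarith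
  have hC : (((2 * (R * (Nat.log 2 m + 1)) + d).choose (d - 1) : ℕ) : ℝ) ≤
      Real.exp (x / 8) := by
    refine (choose_le_pow_mul_exp _ (d - 1) hs1).trans ?_
    have h1 : s ^ (d - 1) ≤ Real.exp (x / 16) := by
      have h2 : s ≤ Real.exp s := by
        have := Real.add_one_le_exp s
        linarith
      calc s ^ (d - 1) ≤ s ^ d := pow_le_pow_right₀ hs1 (Nat.sub_le _ _)
        _ ≤ (Real.exp s) ^ d := pow_le_pow_left₀ hs0.le h2 _
        _ = Real.exp (d * s) := by rw [← Real.exp_nat_mul]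
        _ ≤ Real.exp (x / 16) := by
          apply Real.exp_le_exp.mpr
          calc (d : ℝ) * s ≤ (1 / (16 * s) * x) * s := by gcongr
            _ = x / 16 := by field_simp
    have h2 : Real.exp (((2 * (R * (Nat.log 2 m + 1)) + d : ℕ) : ℝ) / s) ≤ Real.exp (x / 16) := by
      apply Real.exp_le_exp.mpr
      rw [div_le_iff₀ hs0]
      refine hN.trans (le_of_eq ?_)
      rw [hs]
      ring
    calc _ ≤ Real.exp (x / 16) * Real.exp (x / 16) := by gcongr
      _ = Real.exp (x / 8) := by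
        rw [← Real.exp_add]
        congr 1
        ring
  have hr' : (r : ℝ) ≤ Real.exp (x / 2) := by
    refine hr.trans (le_of_eq ?_)
    rw [hmx, Real.sqrt_eq_rpow, ← Real.exp_mul]
    congr 1
    ring
  have hgoal : (2 * (r : ℝ) * (((2 * (R * (Nat.log 2 m + 1)) + d).choose (d - 1) : ℕ) : ℝ) +
      ((R * (Nat.log 2 m + 1) : ℕ) : ℝ)) ≤ (m : ℝ) := by
    have h1 : 2 * (r : ℝ) * (((2 * (R * (Nat.log 2 m + 1)) + d).choose (d - 1) : ℕ) : ℝ) ≤
        2 * Real.exp (5 * x / 8) := by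
      calc _ ≤ 2 * Real.exp (x / 2) * Real.exp (x / 8) := by gcongr
        _ = 2 * Real.exp (5 * x / 8) := by
          rw [mul_assoc, ← Real.exp_add]
          congr 2
          ring
    have h2 : x ≤ 2 * Real.exp (5 * x / 8) := by
      have h3 := Real.add_one_le_exp (5 * x / 8)
      nlinarith
    have h4 : (2 + 6 * R) ≤ Real.exp (3 * x / 8) := by
      have h5 := Real.add_one_le_exp (3 * x / 8)
      nlinarith
    have h6 : Real.exp x = Real.exp (3 * x / 8) * Real.exp (5 * x / 8) := by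
      rw [← Real.exp_add]
      congr 1
      ring
    have h7 : 0 < Real.exp (5 * x / 8) := Real.exp_pos _
    rw [hmx, h6]
    calc _ ≤ 2 * Real.exp (5 * x / 8) + 3 * R * (2 * Real.exp (5 * x / 8)) := by
          refine add_le_add h1 (hk.trans ?_)
          gcongr
      _ = (2 + 6 * R) * Real.exp (5 * x / 8) := by ring
      _ ≤ _ := by gcongr
  exact_mod_cast hgoal

/-- Graphs given by few polynomials of small degree have large homogeneous sets. -/
theorem exists_homogeneous_log_pow (R : ℕ) : ∃ δ : ℝ, 0 < δ ∧ ∃ m0 : ℕ,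
    ∀ (K : Type) [Field K] [Fintype K] (m r d : ℕ), m0 ≤ m → (r : ℝ) ≤ √m →
    (d : ℝ) ≤ δ * Real.log m →
    ∀ f : Fin r → MvPolynomial (Fin m ⊕ Fin m) K, (∀ i, (f i).totalDegree ≤ d) →
    ∀ G : SimpleGraph (Fin m → K),
    (∀ x y x' y' : Fin m → K, x ≠ y → x' ≠ y' →
      (∀ i, eval (Sum.elim x y) (f i) = eval (Sum.elim x' y') (f i)) →
      (∀ i, eval (Sum.elim y x) (f i) = eval (Sum.elim y' x') (f i)) →
      (G.Adj x y ↔ G.Adj x' y')) →
    ∃ A : Finset (Fin m → K), (Real.log (Fintype.card (Fin m → K))) ^ R ≤ A.card ∧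
      (G.IsClique (A : Set (Fin m → K)) ∨ G.IsIndepSet (A : Set (Fin m → K))) := by
  obtain ⟨δ, hδ, m0, h⟩ := numeric R
  refine ⟨δ, hδ, m0 + 1, ?_⟩
  intro K _ _ m r d hm hr hd f hf G hG
  classical
  obtain ⟨U, hU, hhom⟩ := exists_homogeneous_subspace f hf (h m r d (by omega) hr hd) G hG
  refine ⟨(U : Set (Fin m → K)).toFinset, ?_, ?_⟩
  · have hcard : (U : Set (Fin m → K)).toFinset.card =
        Fintype.card K ^ (R * (Nat.log 2 m + 1)) := by
      rw [Set.toFinset_card, ← hU]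
      exact Module.card_eq_pow_finrank (K := K) (V := U)
    rw [hcard, Fintype.card_fun, Fintype.card_fin]
    have hq : 2 ≤ Fintype.card K := Fintype.one_lt_card
    generalize Fintype.card K = q at hq ⊢
    rw [mul_comm R, pow_mul]
    push_cast
    refine pow_le_pow_left₀ (Real.log_nonneg ?_) ?_ R
    · exact one_le_pow₀ (by exact_mod_cast (by omega : 1 ≤ q))
    · rw [Real.log_pow]
      have hq' : (2 : ℝ) ≤ q := by exact_mod_cast hq
      have h1 : Real.log q ≤ q / 2 := by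
        have h2 := Real.log_le_sub_one_of_pos (x := (q : ℝ) / 2) (by linarith)
        rw [Real.log_div (by linarith) (by norm_num)] at h2
        have h3 := Real.log_two_lt_d9
        linarith
      have h4 : (m : ℝ) ≤ 2 ^ (Nat.log 2 m + 1) := by
        exact_mod_cast (Nat.lt_pow_succ_log_self (by norm_num) m).le
      calc (m : ℝ) * Real.log q ≤ 2 ^ (Nat.log 2 m + 1) * (q / 2) := by
            gcongr
        _ ≤ 2 ^ (Nat.log 2 m + 1) * ((q / 2) ^ (Nat.log 2 m + 1)) := by
            gcongr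
            exact le_self_pow₀ (by linarith) (by omega)
        _ = (q : ℝ) ^ (Nat.log 2 m + 1) := by
            rw [← mul_pow]
            congr 1
            ring
  · simpa using hhom

end Pool.Agent.LDP
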