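import Mathlib

namespace Pool.Agent.LDP

/-- The number of ones in the binary expansion. -/
def ones (x : ℕ) : ℕ := (Nat.digits 2 x).sum

lemma ones_zero : ones 0 = 0 := by simp [ones]

lemma ones_even (n : ℕ) : ones (2 * n) = ones n := by
  rcases Nat.eq_zero_or_pos n with rfl | hn
  · rfl
  · unfold ones
    have h := Nat.digits_add 2 (by norm_num) 0 n (by norm_num) (Or.inr hn.ne')
    rw [zero_add] at h
    rw [h, List.sum_cons, zero_add]

lemma ones_odd (n : ℕ) : ones (2 * n + 1) = ones n + 1 := by
  unfold ones
  have h := Nat.digits_add 2 (by norm_num) 1 n (by norm_num) (Or.inl (by norm_num))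
  rw [add_comm (2 * n) 1, h, List.sum_cons, add_comm]

/-- The number of `x < s` with fewer than `e` ones. -/
def low (e s : ℕ) : ℕ := ((Finset.range s).filter fun x => ones x < e).card

lemma low_zero_right (e : ℕ) : low e 0 = 0 := by simp [low]

lemma low_zero_left (s : ℕ) : low 0 s = 0 := by simp [low]

lemma low_succ (e s : ℕ) : low e (s + 1) = low e s + if ones s < e then 1 else 0 := by
  unfold low
  rw [Finset.range_add_one, Finset.filter_insert]
  split_ifs with h
  · rw [Finset.card_insert_of_notMem]
    intro hmem
    have := (Finset.mem_filter.mp hmem).1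
    simp at this
  · rfl

lemma low_even (e n : ℕ) : low (e + 1) (2 * n) = low (e + 1) n + low e n := by
  induction n with
  | zero => simp [low_zero_right]
  | succ n ih =>
    have h : 2 * (n + 1) = 2 * n + 1 + 1 := by ring
    rw [h, low_succ, low_succ, ih, low_succ, low_succ e n, ones_even, ones_odd]
    have h2 : (ones n + 1 < e + 1) ↔ (ones n < e) := by omega
    simp only [h2]
    ring

lemma low_odd (e n : ℕ) : low (e + 1) (2 * n + 1) = low (e + 1) (n + 1) + low e n := by
  rw [low_succ, low_even, low_succ (e + 1) n, ones_even]
  ring

lemma low_one (s : ℕ) (hs : 1 ≤ s) : low 1 s = 1 := by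
  induction s, hs using Nat.le_induction with
  | base =>
    have h := low_succ 1 0
    rw [low_zero_right, ones_zero] at h
    simpa using h
  | succ s hs ih =>
    rw [low_succ, ih, if_neg]
    intro h
    have h0 : ones s = 0 := by omega
    clear ih h
    induction s using Nat.strong_induction_on with
    | _ s ih =>
      rcases Nat.even_or_odd' s with ⟨t, rfl | rfl⟩
      · rw [ones_even] at h0
        exact ih t (by omega) (by omega) h0
      · rw [ones_odd] at h0
        omega

/-- The inequality behind the lower bound for Hilbert functions. -/
lemma low_add_le : ∀ (n a b e : ℕ), a + b ≤ n → b ≤ a →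
    low (e + 1) (a + b) ≤ low (e + 1) a + low e b := by
  intro n
  induction n with
  | zero =>
    intro a b e hn hab
    have ha : a = 0 := by omega
    have hb : b = 0 := by omega
    subst ha hb
    simp [low_zero_right]
  | succ n ih =>
    intro a b e hn hab
    rcases Nat.eq_zero_or_pos b with rfl | hb
    · simp [low_zero_right]
    rcases e with _ | e
    · rw [zero_add, low_one _ (by omega), low_one _ (by omega), low_zero_left]
    have hinc : ∀ b', low (e + 1) b' + low e (b' + 1) ≤ low (e + 1) (b' + 1) + low e b' := by
      intro b'
      rw [low_succ, low_succ]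
      split_ifs with h1 h2 h2
      · omega
      · omega
      · omega
      · omega
    rcases Nat.even_or_odd' a with ⟨a', rfl | rfl⟩ <;> rcases Nat.even_or_odd' b with ⟨b', rfl | rfl⟩
    · have h : 2 * a' + 2 * b' = 2 * (a' + b') := by ring
      rw [h, low_even, low_even, low_even]
      have h1 := ih a' b' (e + 1) (by omega) (by omega)
      have h2 := ih a' b' e (by omega) (by omega)
      omega
    · have h : 2 * a' + (2 * b' + 1) = 2 * (a' + b') + 1 := by ring
      rw [h, low_odd, low_even, low_odd]
      have h1 := ih a' (b' + 1) (e + 1) (by omega) (by omega)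
      have h2 := ih a' b' e (by omega) (by omega)
      rw [← add_assoc] at h1
      omega
    · have h : 2 * a' + 1 + 2 * b' = 2 * (a' + b') + 1 := by ring
      rw [h, low_odd, low_odd, low_even]
      have h1 := ih (a' + 1) b' (e + 1) (by omega) (by omega)
      have h2 := ih a' b' e (by omega) (by omega)
      have h3 : a' + 1 + b' = a' + b' + 1 := by ring
      rw [h3] at h1
      omega
    · have h : 2 * a' + 1 + (2 * b' + 1) = 2 * (a' + b' + 1) := by ring
      rw [h, low_even, low_odd, low_odd]
      have h1 := ih (a' + 1) b' (e + 1) (by omega) (by omega)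
      have h3 : a' + 1 + b' = a' + b' + 1 := by ring
      rw [h3] at h1
      have h4 := hinc b'
      rcases Nat.lt_or_ge b' a' with hlt | hge
      · have h2 := ih a' (b' + 1) e (by omega) (by omega)
        rw [← add_assoc] at h2
        omega
      · have hab' : a' = b' := by omega
        subst hab'
        have h2 := ih (a' + 1) a' e (by omega) (by omega)
        have h5 : a' + 1 + a' = a' + a' + 1 := by ring
        rw [h5] at h2
        omega

end Pool.Agent.LDP
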