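import Mathlib
import Pool.Agent.LDP.Digits

open MvPolynomial

namespace Pool.Agent.LDP

/-- Polynomials of degree at most `D` over `F_2` interpolate every function on a set of fewer than
`2 ^ (D + 1)` points. -/
lemma interp {σ : Type} [Fintype σ] [DecidableEq σ] : ∀ (n D : ℕ) (P : Finset (σ → ZMod 2)),
    P.card ≤ n → P.card < 2 ^ (D + 1) → ∀ g : (σ → ZMod 2) → ZMod 2,
    ∃ h : MvPolynomial σ (ZMod 2), h.totalDegree ≤ D ∧ ∀ p ∈ P, eval p h = g p := by
  classical
  intro n
  induction n with
  | zero =>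
    intro D P hP _ g
    refine ⟨0, by simp, fun p hp => ?_⟩
    have : P = ∅ := Finset.card_eq_zero.mp (Nat.le_zero.mp hP)
    rw [this] at hp
    exact absurd hp (Finset.notMem_empty _)
  | succ n ih =>
    intro D P hPn hP g
    by_cases h1 : P.card ≤ 1
    · rcases P.eq_empty_or_nonempty with rfl | ⟨p, hp⟩
      · exact ⟨0, by simp, fun p hp => absurd hp (Finset.notMem_empty _)⟩
      · refine ⟨C (g p), by rw [totalDegree_C]; exact Nat.zero_le _, fun q hq => ?_⟩
        rw [Finset.card_le_one.mp h1 q hq p hp, eval_C]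
    · push Not at h1
      obtain ⟨p, hp, q, hq, hpq⟩ := Finset.one_lt_card.mp h1
      obtain ⟨i, hi⟩ : ∃ i, p i ≠ q i := by
        by_contra hcon
        push Not at hcon
        exact hpq (funext hcon)
      obtain ⟨D, rfl⟩ : ∃ D', D = D' + 1 := by
        rcases D with _ | D
        · simp at hP
          omega
        · exact ⟨D, rfl⟩
      -- the two halves
      have hsplit : (P.filter fun x => x i = p i).card + (P.filter fun x => ¬ x i = p i).card =
          P.card := Finset.card_filter_add_card_filter_not _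
      have hpos1 : 0 < (P.filter fun x => x i = p i).card :=
        Finset.card_pos.mpr ⟨p, Finset.mem_filter.mpr ⟨hp, rfl⟩⟩
      have hpos2 : 0 < (P.filter fun x => ¬ x i = p i).card :=
        Finset.card_pos.mpr ⟨q, Finset.mem_filter.mpr ⟨hq, fun h => hi h.symm⟩⟩
      have hz : ∀ a b : ZMod 2, ¬ a = b → a = b + 1 := by decide
      have hz2 : ∀ b : ZMod 2, ¬ b + 1 = b := by decide
      have main : ∀ c : ZMod 2, (P.filter fun x => x i = c).card ≤ n →
          (P.filter fun x => ¬ x i = c).card ≤ n →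
          (P.filter fun x => ¬ x i = c).card < 2 ^ (D + 1) →
          ∃ h : MvPolynomial σ (ZMod 2), h.totalDegree ≤ D + 1 ∧ ∀ p ∈ P, eval p h = g p := by
        intro c hn1 hn2 hn3
        obtain ⟨u, hu, hu'⟩ := ih (D + 1) (P.filter fun x => x i = c) hn1
          (lt_of_le_of_lt (Finset.card_filter_le _ _) hP) g
        obtain ⟨v, hv, hv'⟩ := ih D (P.filter fun x => ¬ x i = c) hn2 hn3
          (fun x => g x - eval x u)
        refine ⟨u + (X i - C c) * v, ?_, fun x hx => ?_⟩
        · refine (totalDegree_add _ _).trans (max_le hu ?_)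
          refine (totalDegree_mul _ _).trans ?_
          have : (X i - C c : MvPolynomial σ (ZMod 2)).totalDegree ≤ 1 := by
            refine (totalDegree_sub _ _).trans (max_le (totalDegree_X _).le ?_)
            rw [totalDegree_C]
            exact Nat.zero_le _
          omega
        · rw [map_add, map_mul, map_sub, eval_X, eval_C]
          by_cases hxc : x i = c
          · rw [hu' x (Finset.mem_filter.mpr ⟨hx, hxc⟩), hxc]
            ring
          · rw [hv' x (Finset.mem_filter.mpr ⟨hx, hxc⟩), hz _ _ hxc]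
            ring
      have hpow : 2 ^ (D + 1 + 1) = 2 ^ (D + 1) + 2 ^ (D + 1) := by ring
      by_cases hlt : (P.filter fun x => ¬ x i = p i).card < 2 ^ (D + 1)
      · exact main (p i) (by omega) (by omega) hlt
      · have he1 : (P.filter fun x => x i = p i + 1) = (P.filter fun x => ¬ x i = p i) := by
          refine Finset.filter_congr fun x _ => ⟨fun h h' => ?_, fun h => hz _ _ h⟩
          exact hz2 (p i) (h.symm.trans h')
        have he2 : (P.filter fun x => ¬ x i = p i + 1) = (P.filter fun x => x i = p i) := by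
          refine Finset.filter_congr fun x _ => ⟨fun h => ?_, fun h h' => ?_⟩
          · by_contra h2
            exact h (hz _ _ h2)
          · exact hz2 (p i) (h'.symm.trans h)
        refine main (p i + 1) ?_ ?_ ?_
        · rw [he1]; omega
        · rw [he2]; omega
        · rw [he2]; omega

/-- Every function on `B` is given by a polynomial of degree at most `e`. -/
def Interp {σ : Type} (e : ℕ) (B : Finset (σ → ZMod 2)) : Prop :=
  ∀ g : (σ → ZMod 2) → ZMod 2, ∃ h : MvPolynomial σ (ZMod 2), h.totalDegree ≤ e ∧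
    ∀ p ∈ B, eval p h = g p

lemma Interp.mono {σ : Type} {e : ℕ} {B B' : Finset (σ → ZMod 2)} (h : Interp e B)
    (hB : B' ⊆ B) : Interp e B' := fun g => by
  obtain ⟨u, hu, hu'⟩ := h g
  exact ⟨u, hu, fun p hp => hu' p (hB hp)⟩

lemma interp_of_card_le_one {σ : Type} {e : ℕ} {B : Finset (σ → ZMod 2)} (hB : B.card ≤ 1) :
    Interp e B := by
  intro g
  rcases B.eq_empty_or_nonempty with rfl | ⟨p, hp⟩
  · exact ⟨0, by simp, fun p hp => absurd hp (Finset.notMem_empty _)⟩
  · refine ⟨C (g p), by rw [totalDegree_C]; exact Nat.zero_le _, fun q hq => ?_⟩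
    rw [Finset.card_le_one.mp hB q hq p hp, eval_C]

/-- Every set contains a large subset on which all functions have low degree. -/
lemma exists_interp_subset {σ : Type} [Fintype σ] [DecidableEq σ] :
    ∀ (n : ℕ) (A : Finset (σ → ZMod 2)), A.card ≤ n → ∀ e : ℕ,
    ∃ B ⊆ A, low (e + 1) A.card ≤ B.card ∧ Interp e B := by
  classical
  intro n
  induction n with
  | zero =>
    intro A hA e
    have : A = ∅ := Finset.card_eq_zero.mp (Nat.le_zero.mp hA)
    subst this
    exact ⟨∅, Finset.Subset.refl _, by simp [low_zero_right], interp_of_card_le_one (by simp)⟩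
  | succ n ih =>
    intro A hAn e
    by_cases h1 : A.card ≤ 1
    · refine ⟨A, Finset.Subset.refl _, ?_, interp_of_card_le_one h1⟩
      exact (Finset.card_filter_le _ _).trans (by simp)
    · push Not at h1
      obtain ⟨p, hp, q, hq, hpq⟩ := Finset.one_lt_card.mp h1
      rcases e with _ | e
      · refine ⟨{p}, Finset.singleton_subset_iff.mpr hp, ?_, interp_of_card_le_one (by simp)⟩
        rw [zero_add, low_one _ (by omega), Finset.card_singleton]
      obtain ⟨i, hi⟩ : ∃ i, p i ≠ q i := by
        by_contra hcon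
        push Not at hcon
        exact hpq (funext hcon)
      have hsplit : (A.filter fun x => x i = p i).card + (A.filter fun x => ¬ x i = p i).card =
          A.card := Finset.card_filter_add_card_filter_not _
      have hpos1 : 0 < (A.filter fun x => x i = p i).card :=
        Finset.card_pos.mpr ⟨p, Finset.mem_filter.mpr ⟨hp, rfl⟩⟩
      have hpos2 : 0 < (A.filter fun x => ¬ x i = p i).card :=
        Finset.card_pos.mpr ⟨q, Finset.mem_filter.mpr ⟨hq, fun h => hi h.symm⟩⟩
      have hz : ∀ a b : ZMod 2, ¬ a = b → a = b + 1 := by decide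
      have hz2 : ∀ b : ZMod 2, ¬ b + 1 = b := by decide
      have main : ∀ c : ZMod 2, (A.filter fun x => x i = c).card ≤ n →
          (A.filter fun x => ¬ x i = c).card ≤ n →
          (A.filter fun x => ¬ x i = c).card ≤ (A.filter fun x => x i = c).card →
          ∃ B ⊆ A, low (e + 1 + 1) A.card ≤ B.card ∧ Interp (e + 1) B := by
        intro c hn1 hn2 hn3
        obtain ⟨B1, hB1, hc1, hI1⟩ := ih (A.filter fun x => x i = c) hn1 (e + 1)
        obtain ⟨B2, hB2, hc2, hI2⟩ := ih (A.filter fun x => ¬ x i = c) hn2 e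
        have hdisj : Disjoint B1 B2 := by
          rw [Finset.disjoint_left]
          intro x hx1 hx2
          exact (Finset.mem_filter.mp (hB2 hx2)).2 (Finset.mem_filter.mp (hB1 hx1)).2
        refine ⟨B1 ∪ B2, Finset.union_subset (hB1.trans (Finset.filter_subset _ _))
          (hB2.trans (Finset.filter_subset _ _)), ?_, ?_⟩
        · rw [Finset.card_union_of_disjoint hdisj,
            ← Finset.card_filter_add_card_filter_not (s := A) (fun x => x i = c)]
          exact (low_add_le _ _ _ _ le_rfl hn3).trans (add_le_add hc1 hc2)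
        · intro g
          obtain ⟨u, hu, hu'⟩ := hI1 g
          obtain ⟨v, hv, hv'⟩ := hI2 (fun x => g x - eval x u)
          refine ⟨u + (X i - C c) * v, ?_, fun x hx => ?_⟩
          · refine (totalDegree_add _ _).trans (max_le hu ?_)
            refine (totalDegree_mul _ _).trans ?_
            have : (X i - C c : MvPolynomial σ (ZMod 2)).totalDegree ≤ 1 := by
              refine (totalDegree_sub _ _).trans (max_le (totalDegree_X _).le ?_)
              rw [totalDegree_C]
              exact Nat.zero_le _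
            omega
          · rw [map_add, map_mul, map_sub, eval_X, eval_C]
            rcases Finset.mem_union.mp hx with hx | hx
            · have hxc : x i = c := (Finset.mem_filter.mp (hB1 hx)).2
              rw [hu' x hx, hxc]
              ring
            · have hxc : ¬ x i = c := (Finset.mem_filter.mp (hB2 hx)).2
              rw [hv' x hx, hz _ _ hxc]
              ring
      by_cases hlt : (A.filter fun x => ¬ x i = p i).card ≤ (A.filter fun x => x i = p i).card
      · exact main (p i) (by omega) (by omega) hlt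
      · have he1 : (A.filter fun x => x i = p i + 1) = (A.filter fun x => ¬ x i = p i) := by
          refine Finset.filter_congr fun x _ => ⟨fun h h' => ?_, fun h => hz _ _ h⟩
          exact hz2 (p i) (h.symm.trans h')
        have he2 : (A.filter fun x => ¬ x i = p i + 1) = (A.filter fun x => x i = p i) := by
          refine Finset.filter_congr fun x _ => ⟨fun h => ?_, fun h h' => ?_⟩
          · by_contra h2
            exact h (hz _ _ h2)
          · exact hz2 (p i) (h'.symm.trans h)
        refine main (p i + 1) ?_ ?_ ?_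
        · rw [he1]; omega
        · rw [he2]; omega
        · rw [he1, he2]; omega

lemma card_fiber {A B : Type} [AddGroup A] [Fintype A] [AddGroup B] [Fintype B] [DecidableEq B]
    (T : A →+ B) (hT : Function.Surjective T) (c : B) :
    (Finset.univ.filter fun a => T a = c).card * Fintype.card B = Fintype.card A := by
  have h : ∀ b : B, (Finset.univ.filter fun a => T a = b).card =
      (Finset.univ.filter fun a => T a = c).card := fun b =>
    AddMonoidHom.card_fiber_eq_of_mem_range T (hT b) (hT c)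
  calc (Finset.univ.filter fun a => T a = c).card * Fintype.card B
      = ∑ b : B, (Finset.univ.filter fun a => T a = b).card := by
        rw [Finset.sum_congr rfl fun b _ => h b, Finset.sum_const, Finset.card_univ, smul_eq_mul,
          mul_comm]
    _ = Fintype.card A := by
        rw [← Finset.card_eq_sum_card_fiberwise (f := T) (s := Finset.univ) (t := Finset.univ)
          (fun _ _ => Finset.mem_coe.mpr (Finset.mem_univ _)), Finset.card_univ]

/-- Pairs `i < j` below `s`. -/
abbrev Pairs (s : ℕ) : Type := Σ j : Fin s, Fin j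

lemma card_pairs (s : ℕ) : Fintype.card (Pairs s) = s * (s - 1) / 2 := by
  rw [Fintype.card_sigma]
  simp only [Fintype.card_fin]
  rw [Fin.sum_univ_eq_sum_range (fun i => i) s, Finset.sum_range_id]

/-- The smaller index of a pair. -/
def lo {s : ℕ} (a : Pairs s) : Fin s := ⟨a.2.1, a.2.2.trans a.1.2⟩

lemma lo_lt {s : ℕ} (a : Pairs s) : lo a < a.1 := a.2.2

/-- The functions given by polynomials of degree at most `D`. -/
def degFun (σ : Type) (D : ℕ) : AddSubgroup ((σ → ZMod 2) → ZMod 2) where
  carrier := {φ | ∃ h : MvPolynomial σ (ZMod 2), h.totalDegree ≤ D ∧ ∀ p, eval p h = φ p}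
  zero_mem' := ⟨0, by simp, fun p => by simp⟩
  add_mem' := by
    rintro φ ψ ⟨u, hu, hu'⟩ ⟨v, hv, hv'⟩
    exact ⟨u + v, (totalDegree_add _ _).trans (max_le hu hv), fun p => by
      rw [map_add, hu', hv']; rfl⟩
  neg_mem' := by
    rintro φ ⟨u, hu, hu'⟩
    exact ⟨-u, by rwa [totalDegree_neg], fun p => by rw [map_neg, hu']; rfl⟩

/-- The adjacency pattern of the graph given by `φ` on the image of `e`. -/
def pat {m s D : ℕ} (e : Fin s → Fin m → ZMod 2) :
    degFun (Fin m ⊕ Fin m) D →+ (Pairs s → ZMod 2) where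
  toFun φ := fun a => φ.1 (Sum.elim (e (lo a)) (e a.1)) + φ.1 (Sum.elim (e a.1) (e (lo a)))
  map_zero' := by
    funext a
    simp
  map_add' φ ψ := by
    funext a
    simp only [AddSubgroup.coe_add, Pi.add_apply]
    ring

lemma elim_inj {m : ℕ} {x y x' y' : Fin m → ZMod 2} (h : Sum.elim x y = Sum.elim x' y') :
    x = x' ∧ y = y' := by
  constructor
  · funext i
    exact congrFun h (Sum.inl i)
  · funext i
    exact congrFun h (Sum.inr i)

lemma pat_surjective {m s D : ℕ} (e : Fin s → Fin m → ZMod 2) (he : Function.Injective e)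
    (hs : s * (s - 1) < 2 ^ (D + 1)) : Function.Surjective (pat (D := D) e) := by
  classical
  intro c
  let P : Finset (Fin m ⊕ Fin m → ZMod 2) :=
    (Finset.univ : Finset (Fin s)).offDiag.image fun p => Sum.elim (e p.1) (e p.2)
  have hP : P.card < 2 ^ (D + 1) := by
    refine lt_of_le_of_lt Finset.card_image_le ?_
    rw [Finset.offDiag_card, Finset.card_univ, Fintype.card_fin]
    rw [Nat.mul_sub, mul_one] at hs
    exact hs
  let g : (Fin m ⊕ Fin m → ZMod 2) → ZMod 2 := fun p =>
    ∑ a : Pairs s, if p = Sum.elim (e (lo a)) (e a.1) then c a else 0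
  obtain ⟨h, hdeg, hh⟩ := interp _ D P le_rfl hP g
  refine ⟨⟨fun p => eval p h, h, hdeg, fun p => rfl⟩, ?_⟩
  funext a
  change eval (Sum.elim (e (lo a)) (e a.1)) h + eval (Sum.elim (e a.1) (e (lo a))) h = c a
  have hlt := lo_lt a
  have hm1 : Sum.elim (e (lo a)) (e a.1) ∈ P :=
    Finset.mem_image.mpr ⟨(lo a, a.1), Finset.mem_offDiag.mpr ⟨Finset.mem_univ _,
      Finset.mem_univ _, hlt.ne⟩, rfl⟩
  have hm2 : Sum.elim (e a.1) (e (lo a)) ∈ P :=
    Finset.mem_image.mpr ⟨(a.1, lo a), Finset.mem_offDiag.mpr ⟨Finset.mem_univ _,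
      Finset.mem_univ _, hlt.ne'⟩, rfl⟩
  have hg1 : g (Sum.elim (e (lo a)) (e a.1)) = c a := by
    simp only [g]
    rw [Finset.sum_eq_single a]
    · rw [if_pos rfl]
    · intro b _ hb
      rw [if_neg]
      intro h
      obtain ⟨h1, h2⟩ := elim_inj h
      have h1 := he h1
      have h2 := he h2
      apply hb
      rcases a with ⟨a1, a2⟩
      rcases b with ⟨b1, b2⟩
      simp only at h2
      subst h2
      congr 1
      have := congrArg Fin.val h1
      simp only [lo] at this
      exact Fin.ext this.symm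
    · intro h
      exact absurd (Finset.mem_univ _) h
  have hg2 : g (Sum.elim (e a.1) (e (lo a))) = 0 := by
    simp only [g]
    refine Finset.sum_eq_zero fun b _ => ?_
    rw [if_neg]
    intro h
    obtain ⟨h1, h2⟩ := elim_inj h
    have h1 := he h1
    have h2 := he h2
    have := lo_lt b
    rw [← h1, ← h2] at this
    exact absurd this (not_lt.mpr hlt.le)
  rw [hh _ hm1, hh _ hm2, hg1, hg2, add_zero]

lemma pat_surjective_of_interp {m s D : ℕ} (e : Fin s → Fin m → ZMod 2)
    (he : Function.Injective e) (B : Finset (Fin m → ZMod 2)) (heB : ∀ i, e i ∈ B)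
    (hB : Interp D B) : Function.Surjective (pat (D := 2 * D) e) := by
  classical
  intro c
  have hδ : ∀ i : Fin s, ∃ h : MvPolynomial (Fin m) (ZMod 2), h.totalDegree ≤ D ∧
      ∀ j, eval (e j) h = if j = i then 1 else 0 := by
    intro i
    obtain ⟨h, hh, hh'⟩ := hB (fun p => if p = e i then 1 else 0)
    refine ⟨h, hh, fun j => ?_⟩
    rw [hh' _ (heB j)]
    by_cases hji : j = i
    · rw [if_pos hji, if_pos (by rw [hji])]
    · rw [if_neg hji, if_neg (fun h => hji (he h))]
  choose δ hδ1 hδ2 using hδ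
  let F : MvPolynomial (Fin m ⊕ Fin m) (ZMod 2) :=
    ∑ a : Pairs s, C (c a) * (rename Sum.inl (δ (lo a)) * rename Sum.inr (δ a.1))
  have hF : F.totalDegree ≤ 2 * D := by
    refine (totalDegree_finsetSum _ _).trans ?_
    refine Finset.sup_le fun a _ => ?_
    refine (totalDegree_mul _ _).trans ?_
    rw [totalDegree_C, zero_add]
    refine (totalDegree_mul _ _).trans ?_
    have h1 := (totalDegree_rename_le (Sum.inl : Fin m → Fin m ⊕ Fin m) (δ (lo a))).trans
      (hδ1 (lo a))
    have h2 := (totalDegree_rename_le (Sum.inr : Fin m → Fin m ⊕ Fin m) (δ a.1)).trans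
      (hδ1 a.1)
    omega
  have hev : ∀ i j : Fin s, eval (Sum.elim (e i) (e j)) F =
      ∑ a : Pairs s, c a * ((if i = lo a then 1 else 0) * (if j = a.1 then 1 else 0)) := by
    intro i j
    simp only [F]
    rw [map_sum]
    refine Finset.sum_congr rfl fun a _ => ?_
    rw [map_mul, map_mul, eval_C, eval_rename, eval_rename, Sum.elim_comp_inl, Sum.elim_comp_inr,
      hδ2, hδ2]
  refine ⟨⟨fun p => eval p F, F, hF, fun p => rfl⟩, ?_⟩
  funext a
  change eval (Sum.elim (e (lo a)) (e a.1)) F + eval (Sum.elim (e a.1) (e (lo a))) F = c a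
  have hlt := lo_lt a
  rw [hev, hev, Finset.sum_eq_single a, Finset.sum_eq_zero, add_zero]
  · simp
  · intro b _
    by_cases h1 : a.1 = lo b
    · rw [if_pos h1, if_neg, mul_zero, mul_zero]
      intro h2
      have := lo_lt b
      rw [← h1, ← h2] at this
      exact absurd this (not_lt.mpr hlt.le)
    · rw [if_neg h1, zero_mul, mul_zero]
  · intro b _ hb
    by_cases h1 : lo a = lo b
    · rw [if_neg (c := a.fst = b.fst), mul_zero, mul_zero]
      intro h2
      apply hb
      rcases a with ⟨a1, a2⟩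
      rcases b with ⟨b1, b2⟩
      simp only at h2
      subst h2
      congr 1
      have := congrArg Fin.val h1
      simp only [lo] at this
      exact Fin.ext this.symm
    · rw [if_neg h1, zero_mul, mul_zero]
  · intro h
    exact absurd (Finset.mem_univ _) h

lemma two_pow_lt_factorial {m : ℕ} (hm : 2 ≤ m) : 2 ^ (m + 1) < (2 * m).factorial := by
  induction m, hm using Nat.le_induction with
  | base => decide
  | succ m hm ih =>
    have h1 : (2 * (m + 1)).factorial = (2 * m + 2) * ((2 * m + 1) * (2 * m).factorial) := by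
      rw [show 2 * (m + 1) = 2 * m + 1 + 1 by ring, Nat.factorial_succ, Nat.factorial_succ]
    rw [h1, pow_succ, mul_comm]
    have h2 : (2 * m).factorial ≤ (2 * m + 1) * (2 * m).factorial :=
      Nat.le_mul_of_pos_left _ (by omega)
    calc 2 * 2 ^ (m + 1) < 2 * (2 * m).factorial := by omega
      _ ≤ (2 * m + 2) * ((2 * m + 1) * (2 * m).factorial) := Nat.mul_le_mul (by omega) h2

lemma count_lt {m : ℕ} (hm : 2 ≤ m) :
    2 * (2 ^ m).choose (2 * m) < 2 ^ (2 * m * (2 * m - 1) / 2) := by
  have h1 : (2 ^ m).choose (2 * m) * (2 * m).factorial ≤ 2 ^ (m * (2 * m)) := by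
    rw [mul_comm, ← Nat.descFactorial_eq_factorial_mul_choose, pow_mul]
    exact Nat.descFactorial_le_pow _ _
  have h2 : 2 * m * (2 * m - 1) / 2 = m * (2 * m - 1) := by
    rw [mul_assoc, Nat.mul_div_cancel_left _ (by norm_num)]
  rw [h2]
  have h3 : m * (2 * m) = m * (2 * m - 1) + m := by
    obtain ⟨k, rfl⟩ : ∃ k, m = k + 1 := ⟨m - 1, by omega⟩
    have : 2 * (k + 1) - 1 = 2 * k + 1 := by omega
    rw [this]
    ring
  rw [h3, pow_add] at h1
  have h4 := two_pow_lt_factorial hm
  rw [pow_succ] at h4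
  by_contra hcon
  push Not at hcon
  have hpos : 0 < 2 ^ m := by positivity
  have hpos' : 0 < 2 ^ (m * (2 * m - 1)) := by positivity
  -- 2 C (2m)! <= 2 * 2^{..} 2^m <= 2 * (2 C) * 2^m < 2 C (2m)!
  have h5 : 0 < (2 ^ m).choose (2 * m) := by
    by_contra h0
    have : (2 ^ m).choose (2 * m) = 0 := by omega
    rw [this] at hcon
    omega
  nlinarith

/-- There is a function of degree at most `D` whose graph has no homogeneous set, among the sets
on which all patterns have degree at most `D`. -/
lemma exists_good {m D : ℕ} (hm : 2 ≤ m) (S : Finset (Fin m → ZMod 2) → Prop)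
    (hS : ∀ (e : Fin (2 * m) → Fin m → ZMod 2) (A : Finset (Fin m → ZMod 2)),
      Function.Injective e → (∀ i, e i ∈ A) → S A → Function.Surjective (pat (D := D) e)) :
    ∃ φ : degFun (Fin m ⊕ Fin m) D, ∀ A : Finset (Fin m → ZMod 2), A.card = 2 * m → S A →
      ∀ c : ZMod 2, ¬ ∀ x ∈ A, ∀ y ∈ A, x ≠ y →
        φ.1 (Sum.elim x y) + φ.1 (Sum.elim y x) = c := by
  classical
  -- an enumeration of every set
  have hen : ∀ A : Finset (Fin m → ZMod 2), ∃ e : Fin (2 * m) → Fin m → ZMod 2,
      A.card = 2 * m → (Function.Injective e ∧ ∀ i, e i ∈ A) := by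
    intro A
    by_cases hA : A.card = 2 * m
    · refine ⟨fun i => ((A.equivFinOfCardEq hA).symm i : Fin m → ZMod 2), fun _ => ⟨?_, ?_⟩⟩
      · intro i i' h
        exact (A.equivFinOfCardEq hA).symm.injective (Subtype.ext h)
      · intro i
        exact ((A.equivFinOfCardEq hA).symm i).2
    · exact ⟨fun _ => 0, fun h => absurd h hA⟩
  choose en hen using hen
  by_contra hcon
  push Not at hcon
  let : Fintype (degFun (Fin m ⊕ Fin m) D) := Fintype.ofFinite _
  let Bad : Finset (Fin m → ZMod 2) × ZMod 2 → Finset (degFun (Fin m ⊕ Fin m) D) := fun q =>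
    Finset.univ.filter fun φ => pat (en q.1) φ = fun _ => q.2
  let Ix : Finset (Finset (Fin m → ZMod 2) × ZMod 2) :=
    ((Finset.univ.powersetCard (2 * m)).filter S) ×ˢ Finset.univ
  have hcov : (Finset.univ : Finset (degFun (Fin m ⊕ Fin m) D)) ⊆ Ix.biUnion Bad := by
    intro φ _
    obtain ⟨A, hA, hSA, c, hc⟩ := hcon φ
    refine Finset.mem_biUnion.mpr ⟨(A, c), Finset.mem_product.mpr
      ⟨Finset.mem_filter.mpr ⟨Finset.mem_powersetCard.mpr ⟨Finset.subset_univ _, hA⟩, hSA⟩,
        Finset.mem_univ _⟩, ?_⟩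
    refine Finset.mem_filter.mpr ⟨Finset.mem_univ _, ?_⟩
    funext a
    obtain ⟨hinj, hmem⟩ := hen A hA
    exact hc _ (hmem _) _ (hmem _) (fun h => (lo_lt a).ne (hinj h))
  have hbad : ∀ q ∈ Ix, (Bad q).card * Fintype.card (Pairs (2 * m) → ZMod 2) =
      Fintype.card (degFun (Fin m ⊕ Fin m) D) := by
    rintro ⟨A, c⟩ hq
    have hA := (Finset.mem_powersetCard.mp (Finset.mem_filter.mp (Finset.mem_product.mp hq).1).1).2
    have hSA := (Finset.mem_filter.mp (Finset.mem_product.mp hq).1).2
    exact card_fiber (pat (en A)) (hS (en A) A (hen A hA).1 (hen A hA).2 hSA) _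
  have hcardIx : Ix.card ≤ (2 ^ m).choose (2 * m) * 2 := by
    rw [Finset.card_product, Finset.card_univ, ZMod.card]
    refine Nat.mul_le_mul_right _ ((Finset.card_filter_le _ _).trans ?_)
    rw [Finset.card_powersetCard, Finset.card_univ, Fintype.card_fun, ZMod.card, Fintype.card_fin]
  have h1 : Fintype.card (degFun (Fin m ⊕ Fin m) D) ≤ ∑ q ∈ Ix, (Bad q).card := by
    rw [← Finset.card_univ]
    exact (Finset.card_le_card hcov).trans Finset.card_biUnion_le
  have h2 : Fintype.card (degFun (Fin m ⊕ Fin m) D) * Fintype.card (Pairs (2 * m) → ZMod 2) ≤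
      Ix.card * Fintype.card (degFun (Fin m ⊕ Fin m) D) := by
    calc _ ≤ (∑ q ∈ Ix, (Bad q).card) * Fintype.card (Pairs (2 * m) → ZMod 2) :=
          Nat.mul_le_mul_right _ h1
      _ = _ := by
        rw [Finset.sum_mul, Finset.sum_congr rfl hbad, Finset.sum_const, smul_eq_mul]
  have hpos : 0 < Fintype.card (degFun (Fin m ⊕ Fin m) D) := Fintype.card_pos
  have h3 : Fintype.card (Pairs (2 * m) → ZMod 2) ≤ Ix.card := by
    rw [mul_comm] at h2
    exact Nat.le_of_mul_le_mul_right h2 hpos
  rw [Fintype.card_fun, ZMod.card, card_pairs] at h3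
  have := count_lt hm
  omega

/-- The graph of a good function. -/
lemma graph_of_good {m D : ℕ} (S : Finset (Fin m → ZMod 2) → Prop)
    (hφ : ∃ φ : degFun (Fin m ⊕ Fin m) D, ∀ A : Finset (Fin m → ZMod 2), A.card = 2 * m → S A →
      ∀ c : ZMod 2, ¬ ∀ x ∈ A, ∀ y ∈ A, x ≠ y →
        φ.1 (Sum.elim x y) + φ.1 (Sum.elim y x) = c) :
    ∃ f : MvPolynomial (Fin m ⊕ Fin m) (ZMod 2), f.totalDegree ≤ D ∧
      (∀ x y, eval (Sum.elim x y) f = eval (Sum.elim y x) f) ∧
      ∀ G : SimpleGraph (Fin m → ZMod 2),
        (∀ x y, x ≠ y → (G.Adj x y ↔ eval (Sum.elim x y) f = 1)) →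
        ∀ B : Finset (Fin m → ZMod 2), B.card = 2 * m → S B →
          ¬ G.IsClique (B : Set (Fin m → ZMod 2)) ∧ ¬ G.IsIndepSet (B : Set (Fin m → ZMod 2)) := by
  classical
  obtain ⟨⟨φ, h, hdeg, hh⟩, hφ⟩ := hφ
  have hval : ∀ x y : Fin m → ZMod 2, eval (Sum.elim x y) (h + rename Sum.swap h) =
      φ (Sum.elim x y) + φ (Sum.elim y x) := by
    intro x y
    rw [map_add, eval_rename, hh]
    congr 1
    rw [← hh]
    congr 1
    congr 1
    funext i
    rcases i with i | i <;> rfl
  refine ⟨h + rename Sum.swap h, ?_, ?_, ?_⟩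
  · exact (totalDegree_add _ _).trans (max_le hdeg ((totalDegree_rename_le _ _).trans hdeg))
  · intro x y
    rw [hval, hval, add_comm]
  · intro G hG B hB hSB
    constructor
    · intro hcl
      refine hφ B hB hSB 1 fun x hx y hy hne => ?_
      rw [← hval]
      exact (hG x y hne).mp (hcl hx hy hne)
    · intro hind
      refine hφ B hB hSB 0 fun x hx y hy hne => ?_
      rw [← hval]
      have hn : ¬ eval (Sum.elim x y) (h + rename Sum.swap h) = 1 := fun h1 =>
        hind hx hy hne ((hG x y hne).mpr h1)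
      have hz : ∀ a : ZMod 2, ¬ a = 1 → a = 0 := by decide
      exact hz _ hn

/-- Polynomials of degree about `2 log m` over `F_2` give Ramsey graphs. -/
theorem exists_ramsey_polynomial {m D : ℕ} (hm : 2 ≤ m) (hD : m * (2 * m - 1) < 2 ^ D) :
    ∃ f : MvPolynomial (Fin m ⊕ Fin m) (ZMod 2), f.totalDegree ≤ D ∧
      (∀ x y, eval (Sum.elim x y) f = eval (Sum.elim y x) f) ∧
      ∀ G : SimpleGraph (Fin m → ZMod 2),
        (∀ x y, x ≠ y → (G.Adj x y ↔ eval (Sum.elim x y) f = 1)) →
        ∀ A : Finset (Fin m → ZMod 2), 2 * m ≤ A.card →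
          ¬ G.IsClique (A : Set (Fin m → ZMod 2)) ∧ ¬ G.IsIndepSet (A : Set (Fin m → ZMod 2)) := by
  classical
  have hs : 2 * m * (2 * m - 1) < 2 ^ (D + 1) := by
    rw [pow_succ]
    calc 2 * m * (2 * m - 1) = m * (2 * m - 1) * 2 := by ring
      _ < 2 ^ D * 2 := by omega
  obtain ⟨f, hf, hsym, hf'⟩ := graph_of_good (fun _ => True)
    (exists_good (D := D) hm (fun _ => True) fun e A he _ _ => pat_surjective e he hs)
  refine ⟨f, hf, hsym, fun G hG A hA => ?_⟩
  obtain ⟨B, hBA, hB⟩ := Finset.exists_subset_card_eq hA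
  obtain ⟨h1, h2⟩ := hf' G hG B hB trivial
  exact ⟨fun h => h1 (h.subset (Finset.coe_subset.mpr hBA)),
    fun h => h2 (h.mono (Finset.coe_subset.mpr hBA))⟩

/-- The tradeoff between the degree and the size of the homogeneous sets. -/
theorem exists_ramsey_polynomial_tradeoff {m e s : ℕ} (hm : 2 ≤ m)
    (hs : 2 * m ≤ ((Finset.range s).filter fun x => (Nat.digits 2 x).sum ≤ e).card) :
    ∃ f : MvPolynomial (Fin m ⊕ Fin m) (ZMod 2), f.totalDegree ≤ 2 * e ∧
      (∀ x y, eval (Sum.elim x y) f = eval (Sum.elim y x) f) ∧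
      ∀ G : SimpleGraph (Fin m → ZMod 2),
        (∀ x y, x ≠ y → (G.Adj x y ↔ eval (Sum.elim x y) f = 1)) →
        ∀ A : Finset (Fin m → ZMod 2), s ≤ A.card →
          ¬ G.IsClique (A : Set (Fin m → ZMod 2)) ∧ ¬ G.IsIndepSet (A : Set (Fin m → ZMod 2)) := by
  classical
  obtain ⟨f, hf, hsym, hf'⟩ := graph_of_good (Interp e)
    (exists_good (D := 2 * e) hm (Interp e) fun u A hu huA hA =>
      pat_surjective_of_interp u hu A huA hA)
  refine ⟨f, hf, hsym, fun G hG A hA => ?_⟩
  obtain ⟨A', hA', hcA'⟩ := Finset.exists_subset_card_eq hA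
  obtain ⟨B, hBA, hcB, hIB⟩ := exists_interp_subset _ A' le_rfl e
  have hlow : 2 * m ≤ B.card := by
    refine le_trans ?_ hcB
    rw [hcA']
    refine hs.trans (le_of_eq ?_)
    unfold low ones
    congr 1
    refine Finset.filter_congr fun x _ => ?_
    omega
  obtain ⟨B', hB'B, hB'⟩ := Finset.exists_subset_card_eq hlow
  obtain ⟨h1, h2⟩ := hf' G hG B' hB' (hIB.mono hB'B)
  have hsub : (B' : Set (Fin m → ZMod 2)) ⊆ (A : Set (Fin m → ZMod 2)) :=
    Finset.coe_subset.mpr (hB'B.trans (hBA.trans hA'))
  exact ⟨fun h => h1 (h.subset hsub), fun h => h2 (h.mono hsub)⟩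

end Pool.Agent.LDP
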